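import Pool.Agent.H47.P.DENS
import Pool.Agent.H46.P.Class

/-!
Density of good planes near the period of a member.
-/

namespace Pool.Agent.H47.P

open Pool.Agent.H83.HN Pool.Agent.H83.HP Pool.Agent.H46.P Pool.Agent.H36.HP Filter Topology

open scoped BigOperators

variable {n : ℕ} {Lam : Type} [AddCommGroup Lam]

/-- Module DENS of Theorem P. -/
theorem dens (C : PClass n Lam) (X : C.Mem) {a L : Lam} (ha : a ∈ (C.M X).Ample)
    (hL : L ∈ (C.M X).Nef) (hL0 : L ≠ 0) (hLL : C.q L L = 0) (B : ℤ) :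
    ∃ (p1 p2 : ℕ → Lam) (s t : ℕ → ℝ), (∀ k, Good C.q a L (p1 k) (p2 k) B) ∧
      (∀ x, Tendsto (fun k => s k * (C.q x (p1 k) : ℝ)) atTop (𝓝 ((C.per X).re x))) ∧
      (∀ x, Tendsto (fun k => t k * (C.q x (p2 k) : ℝ)) atTop (𝓝 ((C.per X).im x))) := by
  have hq : IsForm C.q := ⟨C.q_symm, C.q_add⟩
  have haNS := (C.NS_per X a).1 ((C.M X).nef_NS ((C.M X).ample_nef ha))
  have hLNS := (C.NS_per X L).1 ((C.M X).nef_NS hL)
  obtain ⟨p1, p2, s, t, h1, h2⟩ := dense_good C.finite C.q hq C.rest a L ((C.M X).ample_q a ha)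
    hLL ((C.M X).ample_nef_q a ha L hL hL0) (C.per X).e (C.per X).c (C.per X).d
    (C.per X).c_pos (C.per X).d_pos (C.per X).orth haNS.1 hLNS.1 haNS.2 hLNS.2 B
  exact ⟨p1, p2, s, t, fun k => (h1 k).2.2, fun x => (h2 x).1, fun x => (h2 x).2⟩

/-- The same with positive factors. -/
theorem dens' (C : PClass n Lam) (X : C.Mem) {a L : Lam} (ha : a ∈ (C.M X).Ample)
    (hL : L ∈ (C.M X).Nef) (hL0 : L ≠ 0) (hLL : C.q L L = 0) (B : ℤ) :
    ∃ (p1 p2 : ℕ → Lam) (s t : ℕ → ℝ),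
      (∀ k, 0 < s k ∧ 0 < t k ∧ Good C.q a L (p1 k) (p2 k) B) ∧
      (∀ x, Tendsto (fun k => s k * (C.q x (p1 k) : ℝ)) atTop (𝓝 ((C.per X).re x))) ∧
      (∀ x, Tendsto (fun k => t k * (C.q x (p2 k) : ℝ)) atTop (𝓝 ((C.per X).im x))) := by
  have hq : IsForm C.q := ⟨C.q_symm, C.q_add⟩
  have haNS := (C.NS_per X a).1 ((C.M X).nef_NS ((C.M X).ample_nef ha))
  have hLNS := (C.NS_per X L).1 ((C.M X).nef_NS hL)
  obtain ⟨p1, p2, s, t, h1, h2⟩ := dense_good C.finite C.q hq C.rest a L ((C.M X).ample_q a ha)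
    hLL ((C.M X).ample_nef_q a ha L hL hL0) (C.per X).e (C.per X).c (C.per X).d
    (C.per X).c_pos (C.per X).d_pos (C.per X).orth haNS.1 hLNS.1 haNS.2 hLNS.2 B
  exact ⟨p1, p2, s, t, h1, fun x => (h2 x).1, fun x => (h2 x).2⟩

end Pool.Agent.H47.P
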