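import Pool.Agent.H83.HN.LAT1
import Pool.Agent.H83.HN.LAT2

/-!
Density of good planes: a real positive plane orthogonal to `A` and `L` is a limit of rational
planes orthogonal to `A` and `L` such that no vector of negative square `≥ - B` is orthogonal to
the rational plane and to `L`.
-/

namespace Pool.Agent.H47.P

open Pool.Agent.H83.HN Filter Topology

variable {Lam : Type} [AddCommGroup Lam]

/-- The inequality at the end of the construction. -/
lemma final_ineq_ge (Q K a s T U : ℤ) (hQ : 0 < Q) (hT : 0 ≤ T) (hU : 0 ≤ U) (ha : a ≠ 0)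
    (hs : -T ≤ s) (hK : (T + 1) * U + 1 ≤ K)
    (hcs : (-(Q * K * a)) ^ 2 ≤ (Q ^ 2 * s - Q * a ^ 2) * (-U)) : False := by
  have ha2 : 1 ≤ a ^ 2 := by
    have h0 : 0 < a ^ 2 := by positivity
    omega
  have hQ2 : Q ≤ Q ^ 2 := by nlinarith
  have hE : -s ≤ T * a ^ 2 := by nlinarith
  have h5 : Q ^ 2 * K ^ 2 * a ^ 2 ≤ (Q ^ 2 * (-s) + Q * a ^ 2) * U := by
    calc Q ^ 2 * K ^ 2 * a ^ 2 = (-(Q * K * a)) ^ 2 := by ring
      _ ≤ _ := hcs
      _ = _ := by ring
  have h7 : Q ^ 2 * (-s) ≤ Q ^ 2 * (T * a ^ 2) := mul_le_mul_of_nonneg_left hE (sq_nonneg _)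
  have h8 : Q * a ^ 2 ≤ Q ^ 2 * a ^ 2 := mul_le_mul_of_nonneg_right hQ2 (sq_nonneg _)
  have h6 : (Q ^ 2 * (-s) + Q * a ^ 2) * U ≤ (Q ^ 2 * (T * a ^ 2) + Q ^ 2 * a ^ 2) * U :=
    mul_le_mul_of_nonneg_right (by linarith) hU
  have h9 : Q ^ 2 * a ^ 2 * K ^ 2 ≤ Q ^ 2 * a ^ 2 * ((T + 1) * U) := by
    calc Q ^ 2 * a ^ 2 * K ^ 2 = Q ^ 2 * K ^ 2 * a ^ 2 := by ring
      _ ≤ _ := h5
      _ ≤ _ := h6
      _ = _ := by ring
  have h10 : 0 < Q ^ 2 * a ^ 2 := by positivity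
  have h11 : K ^ 2 ≤ (T + 1) * U := le_of_mul_le_mul_left h9 h10
  have h12 : 0 ≤ (T + 1) * U := by positivity
  have h13 : K ≤ K ^ 2 := by nlinarith
  linarith

/-- The contradiction for a bad vector `z`. -/
lemma no_bad_ge (q : Lam → Lam → ℤ) (q_symm : ∀ x y, q x y = q y x)
    (q_add : ∀ x y z, q (x + y) z = q x z + q y z) (N : Submodule ℤ Lam)
    (hNneg : ∀ x ∈ N, x ≠ 0 → q x x < 0) (A L p1 p2 u : Lam) (D C U K : ℤ)
    (hmemN : ∀ x, x ∈ N ↔ q x p1 = 0 ∧ q x p2 = 0 ∧ q x A = 0 ∧ q x L = 0)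
    (hLA : q L A = D) (hL : q L L = 0) (hp11 : 0 < q p1 p1) (h12 : q p1 p2 = 0)
    (hA1 : q A p1 = 0) (hL1 : q L p1 = 0) (hL2 : q L p2 = 0) (huN : u ∈ N)
    (huU : q u u = -U) (hU0 : 0 ≤ U) (hC0 : 0 ≤ C) (hK : (D ^ 2 * C + 1) * U + 1 ≤ K)
    (hu : ∀ y ∈ N, y ≠ 0 → -(D ^ 2 * C) ≤ q y y → q y u ≠ 0) (hD : 0 < D)
    (z : Lam) (hz1 : K * q z p1 + q z u = 0) (hz2 : q z p2 = 0) (hzL : q z L = 0)
    (hzC : - C ≤ q z z) (hz0 : q z z < 0) : False := by
  obtain ⟨hu1, hu2, huA, huL⟩ := (hmemN u).1 huN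
  have h1u : q p1 u = 0 := by rw [q_symm]; exact hu1
  -- the component orthogonal to `A`
  obtain ⟨y, hy⟩ : ∃ y, y = D • z - q z A • L := ⟨_, rfl⟩
  have hyA : q y A = 0 := by
    rw [hy, q_sub q q_add, q_smul q q_add, q_smul q q_add, hLA]; ring
  have hyL : q y L = 0 := by
    rw [hy, q_sub q q_add, q_smul q q_add, q_smul q q_add, hzL, hL]; ring
  have hy2 : q y p2 = 0 := by
    rw [hy, q_sub q q_add, q_smul q q_add, q_smul q q_add, hz2, hL2]; ring
  have hyu : q y u = D * q z u := by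
    rw [hy, q_sub q q_add, q_smul q q_add, q_smul q q_add, q_symm L u, huL]; ring
  have hy1 : q y p1 = D * q z p1 := by
    rw [hy, q_sub q q_add, q_smul q q_add, q_smul q q_add, hL1]; ring
  have hyy : q y y = D ^ 2 * q z z := by
    rw [hy]
    simp only [q_sub q q_add, q_sub_right q q_symm q_add, q_smul q q_add,
      q_smul_right q q_symm q_add, q_symm L z, hzL, hL]
    ring
  obtain ⟨a, ha⟩ : ∃ a, a = q y p1 := ⟨_, rfl⟩
  have hKa : K * a + q y u = 0 := by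
    rw [ha, hy1, hyu]
    linear_combination D * hz1
  have hD2 : 0 < D ^ 2 := by positivity
  have hyC : -(D ^ 2 * C) ≤ q y y := by
    rw [hyy]
    have h1 : D ^ 2 * (-C) ≤ D ^ 2 * q z z := mul_le_mul_of_nonneg_left hzC hD2.le
    linarith
  have hyneg : q y y < 0 := by
    rw [hyy]
    exact mul_neg_of_pos_of_neg hD2 hz0
  have ha0 : a = 0 := by
    by_contra hane
    obtain ⟨n, hn⟩ : ∃ n, n = q p1 p1 • y - a • p1 := ⟨_, rfl⟩
    have hnN : n ∈ N := by
      rw [hmemN]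
      refine ⟨?_, ?_, ?_, ?_⟩
      · rw [hn, q_sub q q_add, q_smul q q_add, q_smul q q_add, ← ha]; ring
      · rw [hn, q_sub q q_add, q_smul q q_add, q_smul q q_add, hy2, h12]; ring
      · rw [hn, q_sub q q_add, q_smul q q_add, q_smul q q_add, hyA, q_symm p1 A, hA1]; ring
      · rw [hn, q_sub q q_add, q_smul q q_add, q_smul q q_add, hyL, q_symm p1 L, hL1]; ring
    have hnu : q n u = - (q p1 p1 * K * a) := by
      rw [hn, q_sub q q_add, q_smul q q_add, q_smul q q_add, h1u]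
      linear_combination (q p1 p1) * hKa
    have hnn : q n n = q p1 p1 ^ 2 * q y y - q p1 p1 * a ^ 2 := by
      rw [hn]
      simp only [q_sub q q_add, q_sub_right q q_symm q_add, q_smul q q_add,
        q_smul_right q q_symm q_add, q_symm p1 y, ← ha]
      ring
    have hcs := cauchy_neg q q_symm q_add N hNneg hnN huN
    rw [hnu, hnn, huU] at hcs
    exact final_ineq_ge (q p1 p1) K a (q y y) (D ^ 2 * C) U hp11 (by positivity) hU0 hane hyC
      hK hcs
  -- now `y` is in the finite set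
  have hyN : y ∈ N := (hmemN y).2 ⟨by rw [← ha, ha0], hy2, hyA, hyL⟩
  have hy0 : y ≠ 0 := by
    intro h
    rw [h, q_zero q q_add] at hyneg
    exact lt_irrefl _ hyneg
  refine hu y hyN hy0 hyC ?_
  rw [ha0] at hKa
  linarith


/-- PERTURBATION: a rational positive plane orthogonal to `A` and `L` is changed a little so that
it is good. -/
theorem perturb (hfin : Module.Finite ℤ Lam) (q : Lam → Lam → ℤ)
    (q_symm : ∀ x y, q x y = q y x) (q_add : ∀ x y z, q (x + y) z = q x z + q y z)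
    (rest : Sig q) (A L p1 p2 : Lam) (hA : 0 < q A A) (hL : q L L = 0) (hAL : 0 < q A L)
    (hp11 : 0 < q p1 p1) (hp22 : 0 < q p2 p2) (h12 : q p1 p2 = 0) (hA1 : q A p1 = 0)
    (hA2 : q A p2 = 0) (hL1 : q L p1 = 0) (hL2 : q L p2 = 0) (C : ℤ) (S : Finset Lam) :
    ∃ (K : ℤ) (u : Lam), 0 < K ∧ Good q A L (K • p1 + u) p2 C ∧ ∀ x ∈ S, |q x u| ≤ K := by
  classical
  obtain ⟨D, hD⟩ : ∃ D, D = q A L := ⟨_, rfl⟩
  have hD0 : 0 < D := by rw [hD]; exact hAL
  have hLA : q L A = D := by rw [q_symm, hD]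
  let N : Submodule ℤ Lam := orth q q_add ![p1, p2, A, L]
  have hmemN : ∀ x, x ∈ N ↔ q x p1 = 0 ∧ q x p2 = 0 ∧ q x A = 0 ∧ q x L = 0 := by
    intro x
    rw [mem_orth]
    constructor
    · intro h
      exact ⟨h 0, h 1, h 2, h 3⟩
    · rintro ⟨a, b, c, d⟩ i
      fin_cases i
      · exact a
      · exact b
      · exact c
      · exact d
  have hNneg : ∀ x ∈ N, x ≠ 0 → q x x < 0 := by
    intro x hx hx0
    obtain ⟨a, b, c, d⟩ := (hmemN x).1 hx
    exact rest p1 p2 A hp11 hp22 hA h12 (by rw [q_symm]; exact hA1) (by rw [q_symm]; exact hA2)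
      x a b c hx0
  obtain ⟨C', hC'⟩ : ∃ C' : ℤ, C' = max C 0 := ⟨_, rfl⟩
  have hC0 : 0 ≤ C' := by rw [hC']; exact le_max_right _ _
  have hCC : C ≤ C' := by rw [hC']; exact le_max_left _ _
  have hSfin := finite_bounded q q_symm q_add hfin N hNneg (D ^ 2 * C')
  obtain ⟨u, huN, hu⟩ := exists_generic q q_symm q_add N hNneg
    (hSfin.toFinset.filter (fun x => x ≠ 0)) (by
      intro x hx
      rw [Finset.mem_filter, Set.Finite.mem_toFinset] at hx
      exact ⟨hx.1.1, hx.2⟩)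
  obtain ⟨hu1, hu2, huA, huL⟩ := (hmemN u).1 huN
  obtain ⟨U, hU⟩ : ∃ U : ℤ, U = |q u u| := ⟨_, rfl⟩
  have hU0 : 0 ≤ U := by rw [hU]; exact abs_nonneg _
  have huu : q u u ≤ 0 := by
    by_cases h0 : u = 0
    · rw [h0, q_zero q q_add]
    · exact (hNneg u huN h0).le
  have huU : q u u = -U := by rw [hU, abs_of_nonpos huu]; ring
  obtain ⟨R, hR⟩ : ∃ R : ℤ, R = ∑ x ∈ S, |q x u| := ⟨_, rfl⟩
  have hR0 : 0 ≤ R := by rw [hR]; exact Finset.sum_nonneg fun _ _ => abs_nonneg _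
  obtain ⟨K, hK⟩ : ∃ K : ℤ, K = (D ^ 2 * C' + 1) * U + 1 + R := ⟨_, rfl⟩
  have hKge : (D ^ 2 * C' + 1) * U + 1 ≤ K := by rw [hK]; linarith
  have hU1 : 0 ≤ (D ^ 2 * C' + 1) * U := by positivity
  have hK1 : 1 ≤ K := by linarith
  have hKU : U < K := by
    have h1 : 0 ≤ D ^ 2 * C' * U := by positivity
    have h2 : (D ^ 2 * C' + 1) * U + 1 = D ^ 2 * C' * U + U + 1 := by ring
    linarith
  have hKR : R ≤ K := by rw [hK]; linarith
  have hKsq : K ≤ K ^ 2 := by nlinarith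
  have h1u : q p1 u = 0 := by rw [q_symm]; exact hu1
  have h2u : q p2 u = 0 := by rw [q_symm]; exact hu2
  refine ⟨K, u, by linarith, ⟨?_, hp22, ?_, ?_, hA2, ?_, hL2, ?_⟩, ?_⟩
  · simp only [q_add, q_add_right q q_symm q_add, q_smul q q_add, q_smul_right q q_symm q_add,
      h1u, hu1, huU]
    have h1 : K ^ 2 * 1 ≤ K ^ 2 * q p1 p1 := mul_le_mul_of_nonneg_left hp11 (sq_nonneg K)
    have h2 : K * (K * q p1 p1 + 0) + (K * 0 + -U) = K ^ 2 * q p1 p1 - U := by ring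
    linarith
  · rw [q_add, q_smul q q_add, h12, hu2]; ring
  · rw [q_add_right q q_symm q_add, q_smul_right q q_symm q_add, hA1, q_symm A u, huA]; ring
  · rw [q_add_right q q_symm q_add, q_smul_right q q_symm q_add, hL1, q_symm L u, huL]; ring
  · intro z hz1 hz2 hzL hzC hz0
    rw [q_add_right q q_symm q_add, q_smul_right q q_symm q_add] at hz1
    refine no_bad_ge q q_symm q_add N hNneg A L p1 p2 u D C' U K hmemN hLA hL hp11 h12 hA1 hL1
      hL2 huN huU hU0 hC0 hKge (fun y hyN hy0 hyC => ?_) hD0 z hz1 hz2 hzL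
      (by linarith) hz0
    refine hu y ?_
    rw [Finset.mem_filter, Set.Finite.mem_toFinset]
    exact ⟨⟨hyN, hyC⟩, hy0⟩
  · intro x hx
    have h1 : |q x u| ≤ R := by
      rw [hR]
      exact Finset.single_le_sum (f := fun x => |q x u|) (fun _ _ => abs_nonneg _) hx
    exact h1.trans hKR

/-- `⌊k c⌋ / k → c`. -/
lemma tendsto_floor (c : ℝ) :
    Tendsto (fun k : ℕ => ((⌊(k : ℝ) * c⌋ : ℤ) : ℝ) / (k : ℝ)) atTop (𝓝 c) := by
  have h1 : Tendsto (fun k : ℕ => c - 1 / (k : ℝ)) atTop (𝓝 (c - 0)) :=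
    tendsto_const_nhds.sub tendsto_one_div_atTop_nhds_zero_nat
  rw [sub_zero] at h1
  refine tendsto_of_tendsto_of_tendsto_of_le_of_le' h1 tendsto_const_nhds ?_ ?_
  · filter_upwards [eventually_gt_atTop 0] with k hk
    have hk' : (0 : ℝ) < k := by exact_mod_cast hk
    rw [le_div_iff₀ hk', sub_mul, one_div_mul_cancel hk'.ne']
    have := Int.sub_one_lt_floor ((k : ℝ) * c)
    linarith [mul_comm c (k : ℝ)]
  · filter_upwards [eventually_gt_atTop 0] with k hk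
    have hk' : (0 : ℝ) < k := by exact_mod_cast hk
    rw [div_le_iff₀ hk']
    have := Int.floor_le ((k : ℝ) * c)
    linarith [mul_comm c (k : ℝ)]

section limits

variable {q : Lam → Lam → ℤ} {ι : Type} [Fintype ι]

/-- The integral combination with coefficients `⌊k c j⌋`. -/
noncomputable def approx (e : ι → Lam) (c : ι → ℝ) (k : ℕ) : Lam :=
  ∑ j, ⌊(k : ℝ) * c j⌋ • e j

lemma q_approx (hq : IsForm q) (e : ι → Lam) (c : ι → ℝ) (k : ℕ) (y : Lam) :
    q y (approx e c k) = ∑ j, ⌊(k : ℝ) * c j⌋ * q y (e j) := by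
  rw [hq.symm, approx, hq.sum_left]
  refine Finset.sum_congr rfl fun j _ => ?_
  rw [hq.zsmul_left, hq.symm (e j) y]

lemma q_approx_left (hq : IsForm q) (e : ι → Lam) (c : ι → ℝ) (k : ℕ) (y : Lam) :
    q (approx e c k) y = ∑ j, ⌊(k : ℝ) * c j⌋ * q (e j) y := by
  rw [approx, hq.sum_left]
  refine Finset.sum_congr rfl fun j _ => ?_
  rw [hq.zsmul_left]

lemma tendsto_approx (hq : IsForm q) (e : ι → Lam) (c : ι → ℝ) (y : Lam) :
    Tendsto (fun k : ℕ => (q y (approx e c k) : ℝ) / (k : ℝ)) atTop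
      (𝓝 (∑ j, c j * (q y (e j) : ℝ))) := by
  have h : ∀ k : ℕ, (q y (approx e c k) : ℝ) / (k : ℝ) =
      ∑ j, ((⌊(k : ℝ) * c j⌋ : ℤ) : ℝ) / (k : ℝ) * (q y (e j) : ℝ) := by
    intro k
    rw [q_approx hq, Int.cast_sum, Finset.sum_div]
    refine Finset.sum_congr rfl fun j _ => ?_
    push_cast
    ring
  simp_rw [h]
  exact tendsto_finset_sum _ fun j _ => (tendsto_floor (c j)).mul tendsto_const_nhds

lemma tendsto_approx2 (hq : IsForm q) (e : ι → Lam) (c d : ι → ℝ) :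
    Tendsto (fun k : ℕ => (q (approx e c k) (approx e d k) : ℝ) / (k : ℝ) ^ 2) atTop
      (𝓝 (∑ i, ∑ j, c i * d j * (q (e i) (e j) : ℝ))) := by
  have h : ∀ k : ℕ, (q (approx e c k) (approx e d k) : ℝ) / (k : ℝ) ^ 2 =
      ∑ i, ∑ j, ((⌊(k : ℝ) * c i⌋ : ℤ) : ℝ) / (k : ℝ) *
        (((⌊(k : ℝ) * d j⌋ : ℤ) : ℝ) / (k : ℝ)) * (q (e i) (e j) : ℝ) := by
    intro k
    rw [q_approx_left hq, Int.cast_sum, Finset.sum_div]
    refine Finset.sum_congr rfl fun i _ => ?_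
    rw [q_approx hq, Int.cast_mul, Int.cast_sum, Finset.mul_sum, Finset.sum_div]
    refine Finset.sum_congr rfl fun j _ => ?_
    push_cast
    rw [div_mul_div_comm, ← pow_two, div_mul_eq_mul_div]
    ring
  simp_rw [h]
  exact tendsto_finset_sum _ fun i _ => tendsto_finset_sum _ fun j _ =>
    ((tendsto_floor (c i)).mul (tendsto_floor (d j))).mul tendsto_const_nhds

/-- The projection to the complement of `A` and `L` (times `q A L ^ 2`). -/
def proj (q : Lam → Lam → ℤ) (A L x : Lam) : Lam :=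
  (q A L ^ 2) • x - (q x L) • (q A L • A - q A A • L) - (q A L * q x A) • L

lemma q_proj (hq : IsForm q) (A L x y : Lam) :
    q y (proj q A L x) = q A L ^ 2 * q y x - q x L * (q A L * q y A - q A A * q y L)
      - q A L * q x A * q y L := by
  rw [proj, hq.sub_right, hq.sub_right, hq.zsmul_right, hq.zsmul_right, hq.zsmul_right,
    hq.sub_right, hq.zsmul_right, hq.zsmul_right]

lemma q_L_proj (hq : IsForm q) (A L x : Lam) (hL : q L L = 0) : q L (proj q A L x) = 0 := by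
  rw [q_proj hq, hL, hq.symm L x, hq.symm L A]
  ring

lemma q_A_proj (hq : IsForm q) (A L x : Lam) : q A (proj q A L x) = 0 := by
  rw [q_proj hq, hq.symm A x]
  ring

lemma q_proj_proj (hq : IsForm q) (A L x y : Lam) (hL : q L L = 0) :
    q (proj q A L x) (proj q A L y) = q A L ^ 2 * (q A L ^ 2 * q x y
      - q y L * (q A L * q x A - q A A * q x L) - q A L * q y A * q x L) := by
  have h1 : q (proj q A L x) (proj q A L y) = q A L ^ 2 * q x (proj q A L y) := by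
    conv_lhs => rw [proj]
    rw [hq.sub_left, hq.sub_left, hq.zsmul_left, hq.zsmul_left, hq.zsmul_left, hq.sub_left,
      hq.zsmul_left, hq.zsmul_left, q_L_proj hq A L y hL, q_A_proj hq A L y]
    ring
  rw [h1, q_proj hq]

lemma tendsto_proj (hq : IsForm q) (A L : Lam) (e : ι → Lam) (c : ι → ℝ)
    (hcA : ∑ j, c j * (q A (e j) : ℝ) = 0) (hcL : ∑ j, c j * (q L (e j) : ℝ) = 0) (y : Lam) :
    Tendsto (fun k : ℕ => (q y (proj q A L (approx e c k)) : ℝ) / (k : ℝ)) atTop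
      (𝓝 ((q A L : ℝ) ^ 2 * ∑ j, c j * (q y (e j) : ℝ))) := by
  have h : ∀ k : ℕ, (q y (proj q A L (approx e c k)) : ℝ) / (k : ℝ) =
      (q A L : ℝ) ^ 2 * ((q y (approx e c k) : ℝ) / (k : ℝ))
      - ((q L (approx e c k) : ℝ) / (k : ℝ)) * ((q A L : ℝ) * q y A - (q A A : ℝ) * q y L)
      - (q A L : ℝ) * ((q A (approx e c k) : ℝ) / (k : ℝ)) * (q y L : ℝ) := by
    intro k
    rw [q_proj hq, hq.symm (approx e c k) L, hq.symm (approx e c k) A]
    push_cast
    ring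
  simp_rw [h]
  have hL := tendsto_approx hq e c L
  have hA := tendsto_approx hq e c A
  have hy := tendsto_approx hq e c y
  rw [hcL] at hL
  rw [hcA] at hA
  have := ((hy.const_mul ((q A L : ℝ) ^ 2)).sub
    (hL.mul_const ((q A L : ℝ) * q y A - (q A A : ℝ) * q y L))).sub
    ((hA.const_mul (q A L : ℝ)).mul_const (q y L : ℝ))
  simpa using this

lemma tendsto_proj2 (hq : IsForm q) (A L : Lam) (hLL : q L L = 0) (e : ι → Lam) (c d : ι → ℝ)
    (hcA : ∑ j, c j * (q A (e j) : ℝ) = 0) (hcL : ∑ j, c j * (q L (e j) : ℝ) = 0)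
    (hdA : ∑ j, d j * (q A (e j) : ℝ) = 0) (hdL : ∑ j, d j * (q L (e j) : ℝ) = 0) :
    Tendsto (fun k : ℕ => (q (proj q A L (approx e c k)) (proj q A L (approx e d k)) : ℝ) /
      (k : ℝ) ^ 2) atTop
      (𝓝 ((q A L : ℝ) ^ 4 * ∑ i, ∑ j, c i * d j * (q (e i) (e j) : ℝ))) := by
  have h : ∀ k : ℕ, (q (proj q A L (approx e c k)) (proj q A L (approx e d k)) : ℝ) /
      (k : ℝ) ^ 2 =
      (q A L : ℝ) ^ 4 * ((q (approx e c k) (approx e d k) : ℝ) / (k : ℝ) ^ 2)
      - (q A L : ℝ) ^ 2 * (((q L (approx e d k) : ℝ) / (k : ℝ)) *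
          ((q A L : ℝ) * ((q A (approx e c k) : ℝ) / (k : ℝ))
            - (q A A : ℝ) * ((q L (approx e c k) : ℝ) / (k : ℝ))))
      - (q A L : ℝ) ^ 3 * (((q A (approx e d k) : ℝ) / (k : ℝ)) *
          ((q L (approx e c k) : ℝ) / (k : ℝ))) := by
    intro k
    rw [q_proj_proj hq A L _ _ hLL, hq.symm (approx e c k) L, hq.symm (approx e c k) A,
      hq.symm (approx e d k) L, hq.symm (approx e d k) A]
    push_cast
    rcases eq_or_ne (k : ℝ) 0 with hk | hk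
    · simp [hk]
    · field_simp
  simp_rw [h]
  have hcL' := tendsto_approx hq e c L
  have hcA' := tendsto_approx hq e c A
  have hdL' := tendsto_approx hq e d L
  have hdA' := tendsto_approx hq e d A
  rw [hcL] at hcL'
  rw [hcA] at hcA'
  rw [hdL] at hdL'
  rw [hdA] at hdA'
  have := (((tendsto_approx2 hq e c d).const_mul ((q A L : ℝ) ^ 4)).sub
    ((hdL'.mul ((hcA'.const_mul (q A L : ℝ)).sub
      (hcL'.const_mul (q A A : ℝ)))).const_mul ((q A L : ℝ) ^ 2))).sub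
    ((hdA'.mul hcL').const_mul ((q A L : ℝ) ^ 3))
  simpa using this

end limits

/-- DENSITY: a real positive plane orthogonal to `A` and `L` is a limit of good rational planes. -/
theorem dense_good (hfin : Module.Finite ℤ Lam) (q : Lam → Lam → ℤ)
    (hq : IsForm q) (rest : Sig q) (A L : Lam) (hA : 0 < q A A) (hL : q L L = 0)
    (hAL : 0 < q A L) {ι : Type} [Fintype ι] (e : ι → Lam) (c d : ι → ℝ)
    (hcc : 0 < ∑ i, ∑ j, c i * c j * (q (e i) (e j) : ℝ))
    (hdd : 0 < ∑ i, ∑ j, d i * d j * (q (e i) (e j) : ℝ))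
    (hcd : ∑ i, ∑ j, c i * d j * (q (e i) (e j) : ℝ) = 0)
    (hcA : ∑ j, c j * (q A (e j) : ℝ) = 0) (hcL : ∑ j, c j * (q L (e j) : ℝ) = 0)
    (hdA : ∑ j, d j * (q A (e j) : ℝ) = 0) (hdL : ∑ j, d j * (q L (e j) : ℝ) = 0) (B : ℤ) :
    ∃ (p1 p2 : ℕ → Lam) (s t : ℕ → ℝ),
      (∀ k, 0 < s k ∧ 0 < t k ∧ Good q A L (p1 k) (p2 k) B) ∧
      ∀ x, Tendsto (fun k => s k * (q x (p1 k) : ℝ)) atTop (𝓝 (∑ j, c j * (q x (e j) : ℝ))) ∧
        Tendsto (fun k => t k * (q x (p2 k) : ℝ)) atTop (𝓝 (∑ j, d j * (q x (e j) : ℝ))) := by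
  classical
  obtain ⟨S, hS⟩ := hfin.fg_top
  obtain ⟨D, hD⟩ : ∃ D : ℝ, D = (q A L : ℝ) := ⟨_, rfl⟩
  have hD0 : 0 < D := by rw [hD]; exact_mod_cast hAL
  obtain ⟨cc, hcc'⟩ : ∃ cc : ℝ, cc = ∑ i, ∑ j, c i * c j * (q (e i) (e j) : ℝ) := ⟨_, rfl⟩
  obtain ⟨dd, hdd'⟩ : ∃ dd : ℝ, dd = ∑ i, ∑ j, d i * d j * (q (e i) (e j) : ℝ) := ⟨_, rfl⟩
  rw [← hcc'] at hcc
  rw [← hdd'] at hdd
  -- the two sequences
  let a : ℕ → Lam := fun k => proj q A L (approx e c k)
  let b : ℕ → Lam := fun k => proj q A L (approx e d k)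
  let r : ℕ → Lam := fun k => q (a k) (a k) • b k - q (a k) (b k) • a k
  have ha : ∀ y, Tendsto (fun k : ℕ => (q y (a k) : ℝ) / (k : ℝ)) atTop
      (𝓝 (D ^ 2 * ∑ j, c j * (q y (e j) : ℝ))) := by
    intro y; rw [hD]; exact tendsto_proj hq A L e c hcA hcL y
  have hb : ∀ y, Tendsto (fun k : ℕ => (q y (b k) : ℝ) / (k : ℝ)) atTop
      (𝓝 (D ^ 2 * ∑ j, d j * (q y (e j) : ℝ))) := by
    intro y; rw [hD]; exact tendsto_proj hq A L e d hdA hdL y
  have haa : Tendsto (fun k : ℕ => (q (a k) (a k) : ℝ) / (k : ℝ) ^ 2) atTop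
      (𝓝 (D ^ 4 * cc)) := by
    rw [hD, hcc']; exact tendsto_proj2 hq A L hL e c c hcA hcL hcA hcL
  have hbb : Tendsto (fun k : ℕ => (q (b k) (b k) : ℝ) / (k : ℝ) ^ 2) atTop
      (𝓝 (D ^ 4 * dd)) := by
    rw [hD, hdd']; exact tendsto_proj2 hq A L hL e d d hdA hdL hdA hdL
  have hab : Tendsto (fun k : ℕ => (q (a k) (b k) : ℝ) / (k : ℝ) ^ 2) atTop (𝓝 0) := by
    have := tendsto_proj2 hq A L hL e c d hcA hcL hdA hdL
    rw [hcd, mul_zero] at this
    exact this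
  have hrr : Tendsto (fun k : ℕ => (q (r k) (r k) : ℝ) / (k : ℝ) ^ 6) atTop
      (𝓝 ((D ^ 4 * cc) ^ 2 * (D ^ 4 * dd))) := by
    have h : ∀ k : ℕ, (q (r k) (r k) : ℝ) / (k : ℝ) ^ 6 =
        ((q (a k) (a k) : ℝ) / (k : ℝ) ^ 2) ^ 2 * ((q (b k) (b k) : ℝ) / (k : ℝ) ^ 2)
        - ((q (a k) (a k) : ℝ) / (k : ℝ) ^ 2) * ((q (a k) (b k) : ℝ) / (k : ℝ) ^ 2) ^ 2 := by
      intro k
      have h1 : q (r k) (r k) = q (a k) (a k) ^ 2 * q (b k) (b k)
          - q (a k) (a k) * q (a k) (b k) ^ 2 := by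
        change q (q (a k) (a k) • b k - q (a k) (b k) • a k)
          (q (a k) (a k) • b k - q (a k) (b k) • a k) = _
        rw [hq.sub_left, hq.zsmul_left, hq.zsmul_left, hq.sub_right, hq.sub_right,
          hq.zsmul_right, hq.zsmul_right, hq.zsmul_right, hq.zsmul_right, hq.symm (b k) (a k)]
        ring
      rw [h1]
      push_cast
      rcases eq_or_ne (k : ℝ) 0 with hk | hk
      · simp [hk]
      · field_simp
    simp_rw [h]
    have := ((haa.pow 2).mul hbb).sub (haa.mul (hab.pow 2))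
    simpa using this
  have hr : ∀ y, Tendsto (fun k : ℕ => (q y (r k) : ℝ) / (k : ℝ) ^ 3) atTop
      (𝓝 ((D ^ 4 * cc) * (D ^ 2 * ∑ j, d j * (q y (e j) : ℝ)))) := by
    intro y
    have h : ∀ k : ℕ, (q y (r k) : ℝ) / (k : ℝ) ^ 3 =
        ((q (a k) (a k) : ℝ) / (k : ℝ) ^ 2) * ((q y (b k) : ℝ) / (k : ℝ))
        - ((q (a k) (b k) : ℝ) / (k : ℝ) ^ 2) * ((q y (a k) : ℝ) / (k : ℝ)) := by
      intro k
      have h1 : q y (r k) = q (a k) (a k) * q y (b k) - q (a k) (b k) * q y (a k) := by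
        change q y (q (a k) (a k) • b k - q (a k) (b k) • a k) = _
        rw [hq.sub_right, hq.zsmul_right, hq.zsmul_right]
      rw [h1]
      push_cast
      rcases eq_or_ne (k : ℝ) 0 with hk | hk
      · simp [hk]
      · field_simp
    simp_rw [h]
    have := (haa.mul (hb y)).sub (hab.mul (ha y))
    simpa using this
  -- positivity for large `k`
  have hpos : ∀ᶠ k : ℕ in atTop, 0 < k ∧ 0 < q (a k) (a k) ∧ 0 < q (r k) (r k) := by
    have e1 : ∀ᶠ k : ℕ in atTop, 0 < (q (a k) (a k) : ℝ) / (k : ℝ) ^ 2 :=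
      haa.eventually (lt_mem_nhds (by positivity))
    have e2 : ∀ᶠ k : ℕ in atTop, 0 < (q (r k) (r k) : ℝ) / (k : ℝ) ^ 6 :=
      hrr.eventually (lt_mem_nhds (by positivity))
    filter_upwards [e1, e2, eventually_gt_atTop 0] with k h1 h2 hk
    have hk' : (0 : ℝ) < k := by exact_mod_cast hk
    refine ⟨hk, ?_, ?_⟩
    · have : (0 : ℝ) < q (a k) (a k) := by
        have h3 := mul_pos h1 (pow_pos hk' 2)
        rwa [div_mul_cancel₀ _ (pow_pos hk' 2).ne'] at h3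
      exact_mod_cast this
    · have : (0 : ℝ) < q (r k) (r k) := by
        have h3 := mul_pos h2 (pow_pos hk' 6)
        rwa [div_mul_cancel₀ _ (pow_pos hk' 6).ne'] at h3
      exact_mod_cast this
  obtain ⟨k0, hk0⟩ := eventually_atTop.1 hpos
  have hpert : ∀ k : ℕ, ∃ (K : ℤ) (u : Lam), 0 < K ∧
      Good q A L (K • a (k + k0) + u) (r (k + k0)) B ∧ ∀ x ∈ S, |q x u| ≤ K := by
    intro k
    obtain ⟨-, h1, h2⟩ := hk0 (k + k0) (Nat.le_add_left _ _)
    have hAa : q A (a (k + k0)) = 0 := q_A_proj hq A L _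
    have hLa : q L (a (k + k0)) = 0 := q_L_proj hq A L _ hL
    have hAb : q A (b (k + k0)) = 0 := q_A_proj hq A L _
    have hLb : q L (b (k + k0)) = 0 := q_L_proj hq A L _ hL
    refine perturb hfin q hq.symm hq.add rest A L (a (k + k0)) (r (k + k0)) hA hL hAL h1 h2
      ?_ hAa ?_ hLa ?_ B S
    · change q (a (k + k0)) (q (a (k + k0)) (a (k + k0)) • b (k + k0)
        - q (a (k + k0)) (b (k + k0)) • a (k + k0)) = 0
      rw [hq.sub_right, hq.zsmul_right, hq.zsmul_right]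
      ring
    · change q A (q (a (k + k0)) (a (k + k0)) • b (k + k0)
        - q (a (k + k0)) (b (k + k0)) • a (k + k0)) = 0
      rw [hq.sub_right, hq.zsmul_right, hq.zsmul_right, hAa, hAb]
      ring
    · change q L (q (a (k + k0)) (a (k + k0)) • b (k + k0)
        - q (a (k + k0)) (b (k + k0)) • a (k + k0)) = 0
      rw [hq.sub_right, hq.zsmul_right, hq.zsmul_right, hLa, hLb]
      ring
  choose K u hK hgood hu using hpert
  have hkk : ∀ k : ℕ, (0 : ℝ) < ((k + k0 : ℕ) : ℝ) := by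
    intro k
    have := (hk0 (k + k0) (Nat.le_add_left _ _)).1
    exact_mod_cast this
  have hKr : ∀ k, (0 : ℝ) < (K k : ℝ) := fun k => by exact_mod_cast hK k
  refine ⟨fun k => K k • a (k + k0) + u k, fun k => r (k + k0),
    fun k => 1 / ((K k : ℝ) * ((k + k0 : ℕ) : ℝ) * D ^ 2),
    fun k => 1 / (((k + k0 : ℕ) : ℝ) ^ 3 * (D ^ 6 * cc)), ?_, ?_⟩
  · intro k
    have h1 := hkk k
    have h2 := hKr k
    exact ⟨by positivity, by positivity, hgood k⟩
  · -- the error term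
    have herr : ∀ x, Tendsto (fun k : ℕ => (q x (u k) : ℝ) / ((K k : ℝ) * ((k + k0 : ℕ) : ℝ)))
        atTop (𝓝 0) := by
      intro x
      have hx : x ∈ Submodule.span ℤ (S : Set Lam) := by rw [hS]; trivial
      refine Submodule.span_induction (p := fun x _ => Tendsto (fun k : ℕ =>
        (q x (u k) : ℝ) / ((K k : ℝ) * ((k + k0 : ℕ) : ℝ))) atTop (𝓝 0)) ?_ ?_ ?_ ?_ hx
      · intro y hy
        have h1 : Tendsto (fun k : ℕ => 1 / ((k + k0 : ℕ) : ℝ)) atTop (𝓝 0) :=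
          (tendsto_one_div_atTop_nhds_zero_nat (𝕜 := ℝ)).comp (tendsto_add_atTop_nat k0)
        refine squeeze_zero_norm (fun k => ?_) h1
        have h2 := hkk k
        have h3 := hKr k
        rw [Real.norm_eq_abs, abs_div, abs_of_pos (mul_pos h3 h2), div_le_div_iff₀
          (mul_pos h3 h2) h2, one_mul]
        have h4 : |(q y (u k) : ℝ)| ≤ (K k : ℝ) := by
          have := hu k y hy
          exact_mod_cast this
        exact mul_le_mul_of_nonneg_right h4 h2.le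
      · simp [hq.zero_left]
      · intro y z _ _ hy hz
        have h1 := hy.add hz
        rw [add_zero] at h1
        refine h1.congr fun k => ?_
        rw [hq.add]
        push_cast
        ring
      · intro n y _ hy
        have h1 := hy.const_mul (n : ℝ)
        rw [mul_zero] at h1
        refine h1.congr fun k => ?_
        rw [hq.zsmul_left]
        push_cast
        ring
    intro x
    constructor
    · have h1 : Tendsto (fun k : ℕ => (q x (a (k + k0)) : ℝ) / ((k + k0 : ℕ) : ℝ)) atTop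
          (𝓝 (D ^ 2 * ∑ j, c j * (q x (e j) : ℝ))) := (ha x).comp (tendsto_add_atTop_nat k0)
      have h2 := (h1.add (herr x)).const_mul (1 / D ^ 2)
      have h3 : 1 / D ^ 2 * (D ^ 2 * ∑ j, c j * (q x (e j) : ℝ) + 0) =
          ∑ j, c j * (q x (e j) : ℝ) := by
        rw [add_zero, ← mul_assoc, one_div_mul_cancel (pow_pos hD0 2).ne', one_mul]
      rw [h3] at h2
      refine h2.congr fun k => ?_
      have h4 := (hkk k).ne'
      have h5 := (hKr k).ne'
      have h6 := hD0.ne'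
      rw [hq.add_right, hq.zsmul_right]
      push_cast at h4 ⊢
      field_simp
    · have h1 : Tendsto (fun k : ℕ => (q x (r (k + k0)) : ℝ) / ((k + k0 : ℕ) : ℝ) ^ 3) atTop
          (𝓝 ((D ^ 4 * cc) * (D ^ 2 * ∑ j, d j * (q x (e j) : ℝ)))) :=
        (hr x).comp (tendsto_add_atTop_nat k0)
      have h2 := h1.const_mul (1 / (D ^ 6 * cc))
      have h3 : 1 / (D ^ 6 * cc) * ((D ^ 4 * cc) * (D ^ 2 * ∑ j, d j * (q x (e j) : ℝ))) =
          ∑ j, d j * (q x (e j) : ℝ) := by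
        have h6 := hD0.ne'
        have h7 := hcc.ne'
        field_simp
      rw [h3] at h2
      refine h2.congr fun k => ?_
      have h4 := (hkk k).ne'
      have h6 := hD0.ne'
      have h7 := hcc.ne'
      push_cast at h4 ⊢
      field_simp

end Pool.Agent.H47.P
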